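import Pool.Agent.W941.RP.Stm

/-! Project RP, part EXTR: the number of split functions. -/

namespace Pool.Agent.W91.RP

open MvPolynomial Pool.Agent.W941.RP

set_option autoImplicit false

/-- the proper nonempty sets -/
def Pr (d : ℕ) : Finset (Finset (Fin d)) := Finset.univ.filter (fun S => S ≠ ∅ ∧ S ≠ Finset.univ)

lemma mem_Pr {d : ℕ} (S : Finset (Fin d)) : S ∈ Pr d ↔ S ≠ ∅ ∧ S ≠ Finset.univ := by
  unfold Pr; simp

/-- normal form -/
def NF {d : ℕ} {N : Type} (s : ℕ) (c : ℕ → Finset (Fin d) → (Fin d → N) → ℂ)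
    (R : ℕ → (Fin d → N) → ℂ) (f : (Fin d → N) → ℂ) : Prop :=
  ∃ (H : ℕ → Finset (Fin d) → (Fin d → N) → ℂ) (b : ℕ → ℂ), (∀ t S, Dep Sᶜ (H t S)) ∧
    ∀ x, f x = ∑ t ∈ Finset.range s, ∑ S ∈ Pr d, c t S x * H t S x +
      ∑ t ∈ Finset.range s, b t * R t x

lemma nf_of_mem {d : ℕ} {N : Type} (s : ℕ) (c : ℕ → Finset (Fin d) → (Fin d → N) → ℂ)
    (R : ℕ → (Fin d → N) → ℂ) (f : (Fin d → N) → ℂ) (hf : f ∈ Gen s c R) : NF s c R f := by
  classical
  unfold Gen at hf
  induction hf using Submodule.span_induction with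
  | mem f hf =>
    rcases hf with ⟨t, ht, S, hS1, hS2, H, hH, rfl⟩ | ⟨t, ht, rfl⟩
    · refine ⟨fun t' S' => if t' = t ∧ S' = S then H else 0, fun _ => 0, ?_, ?_⟩
      · intro t' S'
        by_cases h : t' = t ∧ S' = S
        · simp only [if_pos h]; rw [h.2]; exact hH
        · simp only [if_neg h]; intro x y _; rfl
      · intro x
        rw [Finset.sum_eq_single_of_mem t (Finset.mem_range.mpr ht)]
        · rw [Finset.sum_eq_single_of_mem S ((mem_Pr S).mpr ⟨hS1.ne_empty, hS2⟩)]
          · simp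
          · intro S' _ hne
            simp [hne]
        · intro t' _ hne
          apply Finset.sum_eq_zero
          intro S' _
          simp [hne]
    · refine ⟨fun _ _ => 0, fun t' => if t' = t then 1 else 0, fun _ _ x y _ => rfl, fun x => ?_⟩
      rw [Finset.sum_eq_zero (fun _ _ => Finset.sum_eq_zero (fun _ _ => by simp)), zero_add,
        Finset.sum_eq_single_of_mem t (Finset.mem_range.mpr ht)]
      · simp
      · intro t' _ hne
        simp [hne]
  | zero =>
    exact ⟨fun _ _ => 0, fun _ => 0, fun _ _ x y _ => rfl, fun x => by simp⟩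
  | add f g _ _ hf hg =>
    obtain ⟨H, b, h1, h2⟩ := hf
    obtain ⟨H', b', h1', h2'⟩ := hg
    refine ⟨fun t S x => H t S x + H' t S x, fun t => b t + b' t, ?_, ?_⟩
    · intro t S x y hxy
      show H t S x + H' t S x = H t S y + H' t S y
      rw [h1 t S x y hxy, h1' t S x y hxy]
    · intro x
      rw [Pi.add_apply, h2, h2']
      simp only [mul_add, add_mul, Finset.sum_add_distrib]
      ring
  | smul a f _ hf =>
    obtain ⟨H, b, h1, h2⟩ := hf
    refine ⟨fun t S x => a * H t S x, fun t => a * b t, ?_, ?_⟩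
    · intro t S x y hxy
      show a * H t S x = a * H t S y
      rw [h1 t S x y hxy]
    · intro x
      rw [Pi.smul_apply, h2, smul_eq_mul, mul_add, Finset.mul_sum, Finset.mul_sum]
      congr 1
      · apply Finset.sum_congr rfl
        intro t _
        rw [Finset.mul_sum]
        apply Finset.sum_congr rfl
        intro S _
        ring
      · apply Finset.sum_congr rfl
        intro t _
        ring

lemma card_Pr (d : ℕ) : Fintype.card {S : Finset (Fin (d + 2)) // S ≠ ∅ ∧ S ≠ Finset.univ} =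
    2 ^ (d + 2) - 2 := by
  classical
  rw [Fintype.card_subtype]
  have h : (Finset.univ.filter (fun S : Finset (Fin (d + 2)) => S ≠ ∅ ∧ S ≠ Finset.univ)) =
      Finset.univ \ {∅, Finset.univ} := by
    ext S
    simp
  rw [h, Finset.card_sdiff_of_subset (Finset.subset_univ _), Finset.card_univ, Fintype.card_finset,
    Fintype.card_fin, Finset.card_pair]
  exact (Finset.univ_nonempty.ne_empty).symm

theorem extr : ExtrStmt := by
  classical
  intro d N s c R f hc hR hf
  obtain ⟨H, b, hH, hfx⟩ := nf_of_mem s c R f hf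
  choose FF GG h1 h2 h3 using hR
  refine ⟨(Fin s × {S : Finset (Fin (d + 2)) // S ≠ ∅ ∧ S ≠ Finset.univ}) ⊕ Fin s, inferInstance,
    Sum.elim (fun p => p.2.1) (fun _ => {0}),
    Sum.elim (fun p => c p.1 p.2.1) (fun t => fun x => b t * FF t t.2 x),
    Sum.elim (fun p => H p.1 p.2.1) (fun t => GG t t.2), ?_, ?_, ?_, ?_, ?_, ?_⟩
  · rw [Fintype.card_sum, Fintype.card_prod, card_Pr, Fintype.card_fin]
    have h4 : 2 ≤ 2 ^ (d + 2) := by
      calc 2 = 2 ^ 1 := rfl
        _ ≤ 2 ^ (d + 2) := Nat.pow_le_pow_right (by norm_num) (by omega)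
    obtain ⟨q, hq⟩ := Nat.exists_eq_add_of_le h4
    rw [hq]
    have e1 : 2 + q - 2 = q := by omega
    have e2 : 2 + q - 1 = q + 1 := by omega
    rw [e1, e2]
    ring
  · rintro (p | t)
    · exact p.2.2.1
    · exact Finset.singleton_ne_empty 0
  · rintro (p | t)
    · exact p.2.2.2
    · intro h
      have h4 : (1 : Fin (d + 2)) ∈ ({0} : Finset (Fin (d + 2))) := by
        have h5 : ({0} : Finset (Fin (d + 2))) = Finset.univ := h
        rw [h5]; exact Finset.mem_univ _
      rw [Finset.mem_singleton] at h4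
      exact absurd h4 (by simp)
  · rintro (p | t)
    · exact hc _ _
    · intro x y hxy
      show b t * FF t t.2 x = b t * FF t t.2 y
      rw [h1 t t.2 x y hxy]
  · rintro (p | t)
    · exact hH _ _
    · exact h2 t t.2
  · intro x
    rw [hfx, Fintype.sum_sum_type]
    congr 1
    · rw [Fintype.sum_prod_type, Finset.sum_range]
      apply Finset.sum_congr rfl
      intro t _
      rw [Finset.sum_subtype (Pr (d + 2)) (fun S => mem_Pr S)]
      rfl
    · rw [Finset.sum_range]
      apply Finset.sum_congr rfl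
      intro t _
      show b t * R t x = b t * FF t t.2 x * GG t t.2 x
      rw [h3 t t.2]
      ring

end Pool.Agent.W91.RP
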